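import Pool.Agent.W363.JQ.Stm

set_option autoImplicit false

namespace Pool.Agent.W800.JQ

open Pool.Agent.W363.JQ Filter Topology Set Metric

theorem blaschke : S_blaschke := by
  intro d H hH hne hlt hbig
  have hcb : ∀ ρ : ℝ, ρ < 1 → closedBall (0 : ℂ) ρ ⊆ ball 0 1 := fun ρ hρ =>
    closedBall_subset_ball hρ
  have h1 : ∀ w ∈ ball (0 : ℂ) 1, ‖H w‖ ≤ 1 := by
    intro w hw
    rw [mem_ball_zero_iff] at hw
    have hst : ∀ ρ : ℝ, ‖w‖ < ρ → ρ < 1 → ‖H w‖ ≤ (ρ ^ d)⁻¹ := by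
      intro ρ h2 h3
      have hρ0 : 0 < ρ := lt_of_le_of_lt (norm_nonneg _) h2
      refine Complex.norm_le_of_forall_mem_frontier_norm_le (U := ball (0 : ℂ) ρ) isBounded_ball
        (hH.diffContOnCl_ball (hcb ρ h3)) (fun u hu => ?_) (subset_closure (by simpa using h2))
      rw [frontier_ball _ hρ0.ne', mem_sphere_zero_iff_norm] at hu
      have h4 := hlt u (by rw [mem_ball_zero_iff, hu]; exact h3)
      rw [norm_mul, norm_pow, hu] at h4
      rw [← one_div, le_div_iff₀ (by positivity)]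
      linarith
    have ht : Tendsto (fun ρ : ℝ => (ρ ^ d)⁻¹) (𝓝[<] 1) (𝓝 1) := by
      have h5 : ContinuousAt (fun ρ : ℝ => (ρ ^ d)⁻¹) 1 :=
        ((continuous_pow d).continuousAt).inv₀ (by simp)
      have h6 := h5.tendsto.mono_left (nhdsWithin_le_nhds (s := Iio (1 : ℝ)))
      simpa using h6
    refine ge_of_tendsto ht ?_
    filter_upwards [Ioo_mem_nhdsLT hw] with ρ hρ
    exact hst ρ hρ.1 hρ.2
  have h2 : ∀ w ∈ ball (0 : ℂ) 1, 1 ≤ ‖H w‖ := by
    intro w hw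
    refine le_of_forall_pos_lt_add fun ε hε => ?_
    rcases le_or_gt 1 ε with h | hε1
    · have := norm_pos_iff.2 (hne w hw)
      linarith
    have hw' := hw
    rw [mem_ball_zero_iff] at hw
    obtain ⟨ρ0, h3, h4⟩ := hbig (ε / 2) (by positivity)
    obtain ⟨ρ, h5, h6⟩ := exists_between (max_lt h3 hw)
    obtain ⟨h5, h7⟩ := max_lt_iff.1 h5
    have hρ0 : 0 < ρ := lt_of_le_of_lt (norm_nonneg _) h7
    have key : ‖(H w)⁻¹‖ ≤ (1 - ε / 2)⁻¹ := by
      have hdi : DifferentiableOn ℂ (fun u => (H u)⁻¹) (ball 0 1) := hH.fun_inv hne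
      refine Complex.norm_le_of_forall_mem_frontier_norm_le (U := ball (0 : ℂ) ρ) isBounded_ball
        (hdi.diffContOnCl_ball (hcb ρ h6)) (fun u hu => ?_) (subset_closure (by simpa using h7))
      rw [frontier_ball _ hρ0.ne', mem_sphere_zero_iff_norm] at hu
      have hub : u ∈ ball (0 : ℂ) 1 := by rw [mem_ball_zero_iff, hu]; exact h6
      have h8 := h4 u hub (by rw [hu]; exact h5)
      rw [norm_mul, norm_pow, hu] at h8
      have h9 : ρ ^ d ≤ 1 := pow_le_one₀ hρ0.le h6.le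
      have h10 : ρ ^ d * ‖H u‖ ≤ ‖H u‖ := by
        have := mul_le_mul_of_nonneg_right h9 (norm_nonneg (H u))
        linarith
      rw [norm_inv]
      exact inv_anti₀ (by linarith) (by linarith)
    rw [norm_inv] at key
    have h8 : 1 - ε / 2 ≤ ‖H w‖ := by
      have h9 := norm_pos_iff.2 (hne w hw')
      exact (inv_le_inv₀ h9 (by linarith)).1 key
    linarith
  have h0 : (0 : ℂ) ∈ ball (0 : ℂ) 1 := mem_ball_self one_pos
  refine ⟨H 0, le_antisymm (h1 0 h0) (h2 0 h0), ?_⟩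
  have hmax : IsMaxOn (norm ∘ H) (ball 0 1) 0 := by
    intro u hu
    show ‖H u‖ ≤ ‖H 0‖
    exact (h1 u hu).trans (h2 0 h0)
  exact Complex.eqOn_of_isPreconnected_of_isMaxOn_norm (convex_ball 0 1).isPreconnected isOpen_ball hH
    h0 hmax

end Pool.Agent.W800.JQ
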