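import Pool.Agent.W363.JQ.Stm

set_option autoImplicit false

namespace Pool.Agent.W800.JQ

open Pool.Agent.W363.JQ Filter Topology Set Metric

theorem local_inj (f : Polynomial ℂ) (z : ℂ) (h : f.derivative.eval z ≠ 0) :
    ∃ δ : ℝ, 0 < δ ∧ InjOn (fun w => f.eval w) (ball z δ) := by
  have h1 : HasStrictDerivAt (fun w => f.eval w) (f.derivative.eval z) z := f.hasStrictDerivAt z
  have h2 := h1.hasStrictFDerivAt_equiv h
  have h3 := (h2.toOpenPartialHomeomorph _).injOn
  have h4 := (h2.toOpenPartialHomeomorph _).open_source.mem_nhds h2.mem_toOpenPartialHomeomorph_source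
  obtain ⟨δ, hδ, h5⟩ := Metric.mem_nhds_iff.1 h4
  exact ⟨δ, hδ, h3.mono h5⟩

theorem it_shift (f : Polynomial ℂ) (U : Set ℂ) (Z : (ℕ → Bool) → ℂ) (hT : Tree f U Z) (n : ℕ)
    (ω : ℕ → Bool) : it f n (Z ω) = Z (fun i => ω (i + n)) := by
  induction n with
  | zero => rfl
  | succ n ih =>
    show (fun w : ℂ => f.eval w)^[n + 1] (Z ω) = _
    rw [Function.iterate_succ_apply']
    show f.eval (it f n (Z ω)) = _
    rw [ih, hT.shift]
    congr 1
    funext i
    congr 1
    omega

/-- the periodic word -/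
def om (k i : ℕ) : Bool := decide (i % (k + 1) = k)

theorem om_lt (k i : ℕ) (h : i < k) : om k i = false := by
  unfold om
  rw [Nat.mod_eq_of_lt (by omega)]
  simp only [decide_eq_false_iff_not]
  omega

theorem om_k (k : ℕ) : om k k = true := by
  unfold om
  rw [Nat.mod_eq_of_lt (by omega)]
  simp

theorem om_per (k i : ℕ) : om k (i + (k + 1)) = om k i := by
  unfold om
  rw [Nat.add_mod_right]

theorem code : S_code := by
  intro f U Z hder hT
  obtain ⟨C, hC, hlip⟩ := hT.lip
  set zb := Z (fun _ => false) with hzb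
  have hitzb : ∀ n, it f n zb = zb := fun n => it_shift f U Z hT n _
  have hfzb : f.eval zb = zb := hT.shift _
  obtain ⟨δ, hδ, hinj⟩ := local_inj f zb (hder zb (hT.mem _))
  have hper : ∀ k, it f (k + 1) (Z (om k)) = Z (om k) := by
    intro k
    rw [it_shift f U Z hT]
    congr 1
    funext i
    exact om_per k i
  have hdist : ∀ k, dist (Z (om k)) zb ≤ C / 2 ^ k := fun k =>
    hlip k _ _ fun i hi => om_lt k i hi
  have hne : ∀ k, C / 2 ^ (k + 1) < δ → Z (om k) ≠ zb := by
    intro k hk heq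
    have h1 : Z (fun i => om k (i + k)) = zb := by
      rw [← it_shift f U Z hT k (om k), heq, hitzb]
    have h2 := hT.ne (fun i => if i = 0 then false else om k (i - 1)) (fun i => om k (i + k))
      (by simp [om_k]) (by
        intro i
        rw [if_neg (Nat.succ_ne_zero i), Nat.add_sub_cancel, show i + 1 + k = i + (k + 1) by ring,
          om_per])
    rw [h1] at h2
    apply h2
    apply hinj
    · rw [mem_ball]
      refine lt_of_le_of_lt (hlip (k + 1) _ _ fun i hi => ?_) hk
      show (if i = 0 then false else om k (i - 1)) = false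
      by_cases h : i = 0
      · rw [if_pos h]
      · rw [if_neg h]
        exact om_lt k _ (by omega)
    · exact mem_ball_self hδ
    · show f.eval _ = f.eval zb
      rw [hT.shift, hfzb, ← heq]
      congr 1
  intro hfin
  set S := {x : ℂ | x ∈ frontier U ∧ ∃ q : ℕ, 1 ≤ q ∧ it f q x = x} with hS
  have hfin' : (S \ {zb}).Finite := hfin.subset sdiff_subset
  have hnb : (S \ {zb})ᶜ ∈ 𝓝 zb := hfin'.isClosed.isOpen_compl.mem_nhds (by simp)
  obtain ⟨δ', hδ', hb⟩ := Metric.mem_nhds_iff.1 hnb
  have ht : Tendsto (fun k : ℕ => C / (2 : ℝ) ^ k) atTop (𝓝 0) := by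
    have h1 := (tendsto_pow_atTop_nhds_zero_of_lt_one (r := (1 / 2 : ℝ)) (by norm_num)
      (by norm_num)).const_mul C
    rw [mul_zero] at h1
    refine h1.congr fun k => ?_
    rw [one_div, inv_pow, div_eq_mul_inv]
  obtain ⟨k, hk⟩ := (ht.eventually (gt_mem_nhds (lt_min hδ hδ'))).exists
  have hk1 : C / 2 ^ k < δ := hk.trans_le (min_le_left _ _)
  have hk2 : C / 2 ^ k < δ' := hk.trans_le (min_le_right _ _)
  have hk3 : C / 2 ^ (k + 1) < δ := by
    refine lt_of_le_of_lt ?_ hk1
    exact div_le_div_of_nonneg_left hC.le (by positivity)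
      (pow_le_pow_right₀ (by norm_num) (Nat.le_succ k))
  have h3 := hb (show Z (om k) ∈ ball zb δ' from lt_of_le_of_lt (hdist k) hk2)
  exact h3 ⟨⟨hT.mem _, k + 1, by omega, hper k⟩, hne k hk3⟩

end Pool.Agent.W800.JQ
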