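import Pool.Agent.W363.JQ.Stm

set_option autoImplicit false

namespace Pool.Agent.W800.JQ

open Pool.Agent.W363.JQ Filter Topology Set Metric

theorem main0 (h1 : S_satT) (h2 : S_LTab) (h3 : S_chain) (h4 : S_maps) (h5 : S_glue) : S_main := by
  intro F r φ α β ψ₀ ψ₁ hF hP
  obtain ⟨hLα, hLβ⟩ := h2 F r φ α β ψ₀ ψ₁ hF hP
  have hD3 : (3 : ℝ) ≤ (F.natDegree : ℝ) := by exact_mod_cast hF.deg
  obtain ⟨k, hk⟩ := hF.fixα α rfl
  obtain ⟨k', hk'⟩ := hF.fixβ β rfl
  have hab := hF.ab
  have hba := hF.ba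
  set D : ℝ := (F.natDegree : ℝ) with hD
  have hD0 : 0 < D := by linarith
  obtain ⟨l, hl⟩ : ∃ l : ℝ, l = β - α := ⟨_, rfl⟩
  have hl0 : 0 < l := by linarith
  have hl1 : l < 1 := by linarith
  obtain ⟨q, hq⟩ : ∃ q : ℝ, q = l / D := ⟨_, rfl⟩
  have hqD : q * D = l := by rw [hq]; field_simp
  have hq0 : 0 < q := by rw [hq]; positivity
  have hq3 : 3 * q ≤ l := by nlinarith
  obtain ⟨q2, hq2⟩ : ∃ q2 : ℝ, q2 = q / D := ⟨_, rfl⟩
  have hq2D : q2 * D = q := by rw [hq2]; field_simp
  have hq20 : 0 < q2 := by rw [hq2]; positivity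
  have hq23 : 3 * q2 ≤ q := by nlinarith
  set s₁ : ℝ := α + (β - α - (β - α) / D) / D with hs₁
  set s₂ : ℝ := α + (β - α) / D with hs₂
  set p₁ : ℝ := β - (β - α) / D with hp₁
  set p₂ : ℝ := β - (β - α - (β - α) / D) / D with hp₂
  have es₁ : s₁ = α + (q - q2) := by
    rw [hs₁, ← hl, ← hq, sub_div, ← hq, ← hq2]
  have es₂ : s₂ = α + q := by rw [hs₂, ← hl, ← hq]
  have ep₁ : p₁ = β - q := by rw [hp₁, ← hl, ← hq]
  have ep₂ : p₂ = β - (q - q2) := by
    rw [hp₂, ← hl, ← hq, sub_div, ← hq, ← hq2]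
  have a1 : α < s₁ := by rw [es₁]; linarith
  have a2 : s₁ < s₂ := by rw [es₁, es₂]; linarith
  have a3 : s₂ < p₁ := by rw [es₂, ep₁]; linarith
  have a4 : p₁ < p₂ := by rw [ep₁, ep₂]; linarith
  have a5 : p₂ < β := by rw [ep₂]; linarith
  -- saturation
  have satA := h1 F r φ α β ψ₀ ψ₁ hF hP α β le_rfl hab le_rfl hF.sat
  rw [← hD] at satA
  have sat1 : Sat φ α s₂ := by
    have := satA.1
    rwa [sub_self, zero_div, add_zero] at this
  have sat2 : Sat φ p₁ β := by
    have := satA.2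
    rwa [sub_self, zero_div, sub_zero] at this
  have sat3 : Sat φ s₁ s₂ := by
    have := (h1 F r φ α β ψ₀ ψ₁ hF hP p₁ β (by linarith) (by linarith) le_rfl sat2).1
    rw [← hD] at this
    have e : α + (p₁ - α) / D = s₁ := by rw [hs₁, hp₁]; ring
    rwa [e] at this
  have sat4 : Sat φ p₁ p₂ := by
    have := (h1 F r φ α β ψ₀ ψ₁ hF hP α s₂ le_rfl (by linarith) (by linarith) sat1).2
    rw [← hD] at this
    have e : β - (β - s₂) / D = p₂ := by rw [hs₂, hp₂]; ring
    rwa [e] at this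
  have C1 : Chain φ α β s₁ s₂ := by
    refine h3 F r φ α β hF hLα hLβ 2 s₁ s₂ a1 a2 (by linarith) ?_ ?_ sat3 (Or.inl sat1)
    · rw [← hD, ← hl, es₂, es₁]
      have : l / D ^ 2 = q2 := by rw [hq2, hq]; field_simp
      rw [this]; ring
    · refine ⟨F.natDegree * k + k', ?_⟩
      rw [← hD]
      push_cast
      rw [← hD]
      have e : D ^ 2 * s₁ = D * (D * α) + D * (D * q) - D * (D * q2) := by rw [es₁]; ring
      have e1 : D * q = l := by linarith
      have e2 : D * q2 = q := by linarith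
      rw [e, hk, e1, e2, e1, mul_add, hk]
      have e3 : D * l = D * β - D * α := by rw [hl]; ring
      rw [e3, hk, hk', hl]
      ring
  have C2 : Chain φ α β p₁ p₂ := by
    refine h3 F r φ α β hF hLα hLβ 2 p₁ p₂ (by linarith) a4 a5 ?_ ?_ sat4 (Or.inr sat2)
    · rw [← hD, ← hl, ep₂, ep₁]
      have : l / D ^ 2 = q2 := by rw [hq2, hq]; field_simp
      rw [this]; ring
    · refine ⟨F.natDegree * k' + k, ?_⟩
      rw [← hD]
      push_cast
      rw [← hD]
      have e : D ^ 2 * p₁ = D * (D * β) - D * (D * q) := by rw [ep₁]; ring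
      have e1 : D * q = l := by linarith
      rw [e, hk', e1, mul_add, hk']
      have e3 : D * l = D * β - D * α := by rw [hl]; ring
      rw [e3, hk, hk']
      ring
  obtain ⟨m1, m2, m3, m4, m5, m6, L, hL1, L1, L2, L3, L4, L5⟩ :=
    h4 F r φ α β ψ₀ ψ₁ hF hP D s₁ s₂ p₁ p₂ hD hs₁ hs₂ hp₁ hp₂
  have arcJ : ∀ s t, arc φ s t ⊆ JJ F := by
    rintro s t _ ⟨u, -, rfl⟩
    rw [← hF.rng]
    exact mem_range_self u
  -- every point of the Julia set has an angle in a fundamental interval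
  have hfund : ∀ x ∈ JJ F, ∃ t ∈ Icc α (α + 1), φ t = x := by
    intro x hx
    rw [← hF.rng] at hx
    obtain ⟨t, rfl⟩ := hx
    have hperZ : ∀ n : ℤ, φ (t + n) = φ t := by
      intro n
      have : Function.Periodic φ 1 := hF.per
      have h := this.int_mul n t
      rwa [mul_one] at h
    refine ⟨t + (-⌊t - α⌋ : ℤ), ?_, hperZ _⟩
    have f1 := Int.floor_le (t - α)
    have f2 := Int.lt_floor_add_one (t - α)
    push_cast
    exact ⟨by linarith, by linarith⟩
  have hα1 : φ (α + 1) = φ α := hF.per α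
  have hglue : ∃ (Ψ : JJ F ≃ₜ JJ F) (L : ℝ), 1 ≤ L ∧ (∀ x y : JJ F, dist (Ψ x) (Ψ y) ≤ L * dist x y ∧
      dist x y ≤ L * dist (Ψ x) (Ψ y)) ∧ ∀ i, ∀ x : JJ F, (x : ℂ) ∈
        (![arc φ β (α + 1), arc φ α s₁, arc φ s₁ s₂, arc φ s₂ β] : Fin 4 → Set ℂ) i →
        ((Ψ x : JJ F) : ℂ) = (![id, fun z => F.eval z, fun z => ψ₁ (ψ₀ (F.eval (F.eval z))), ψ₁] :
          Fin 4 → ℂ → ℂ) i x := by
    refine h5 (JJ F) 4
      ![arc φ β (α + 1), arc φ α s₁, arc φ s₁ s₂, arc φ s₂ β]
      ![arc φ β (α + 1), arc φ α p₁, arc φ p₁ p₂, arc φ p₂ β]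
      ![id, fun z => F.eval z, fun z => ψ₁ (ψ₀ (F.eval (F.eval z))), ψ₁]
      ![id, ψ₀, fun z => ψ₀ (ψ₁ (F.eval (F.eval z))), fun z => F.eval z]
      hF.bas.jcpt (by
        refine Subset.antisymm (iUnion_subset fun i => ?_) fun x hx => ?_
        · fin_cases i <;> exact arcJ _ _
        · obtain ⟨t, ht, rfl⟩ := hfund x hx
          rw [mem_iUnion]
          rcases le_total t s₁ with g | g
          · exact ⟨1, t, ⟨ht.1, g⟩, rfl⟩
          rcases le_total t s₂ with g' | g'
          · exact ⟨2, t, ⟨g, g'⟩, rfl⟩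
          rcases le_total t β with g'' | g''
          · exact ⟨3, t, ⟨g', g''⟩, rfl⟩
          · exact ⟨0, t, ⟨g'', ht.2⟩, rfl⟩) (by
        refine Subset.antisymm (iUnion_subset fun i => ?_) fun x hx => ?_
        · fin_cases i <;> exact arcJ _ _
        · obtain ⟨t, ht, rfl⟩ := hfund x hx
          rw [mem_iUnion]
          rcases le_total t p₁ with g | g
          · exact ⟨1, t, ⟨ht.1, g⟩, rfl⟩
          rcases le_total t p₂ with g' | g'
          · exact ⟨2, t, ⟨g, g'⟩, rfl⟩
          rcases le_total t β with g'' | g''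
          · exact ⟨3, t, ⟨g', g''⟩, rfl⟩
          · exact ⟨0, t, ⟨g'', ht.2⟩, rfl⟩) ?_ ?_ ?_ ?_ ?_ ?_ ?_ ?_ ?_
    · -- MapsTo h
      intro i
      fin_cases i
      · exact mapsTo_id _
      · rintro _ ⟨t, ht, rfl⟩
        show F.eval (φ t) ∈ arc φ α p₁
        rw [m1 t ht]
        refine ⟨_, ⟨by nlinarith [ht.1], ?_⟩, rfl⟩
        have g1 : D * (t - α) ≤ D * (s₁ - α) := mul_le_mul_of_nonneg_left (by linarith [ht.2]) hD0.le
        have g2 : D * (s₁ - α) = l - q := by rw [es₁]; linear_combination hqD - hq2D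
        rw [ep₁]; linarith
      · rintro _ ⟨t, ht, rfl⟩
        show ψ₁ (ψ₀ (F.eval (F.eval (φ t)))) ∈ arc φ p₁ p₂
        rw [m2 t ht]
        refine ⟨_, ⟨by linarith [ht.1], ?_⟩, rfl⟩
        have := ht.2
        rw [es₂] at this
        rw [ep₁, ep₂, es₁]; linarith
      · rintro _ ⟨t, ht, rfl⟩
        show ψ₁ (φ t) ∈ arc φ p₂ β
        rw [m3 t ht]
        have g1 : (β - t) / D ≤ (β - s₂) / D := div_le_div_of_nonneg_right (by linarith [ht.1]) hD0.le
        have g2 : (β - s₂) / D = q - q2 := by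
          rw [es₂, show β - (α + q) = l - q by rw [hl]; ring, sub_div, ← hq, ← hq2]
        have g3 : 0 ≤ (β - t) / D := div_nonneg (by linarith [ht.2]) hD0.le
        refine ⟨_, ⟨?_, by linarith⟩, rfl⟩
        rw [ep₂]; linarith
    · -- MapsTo g
      intro i
      fin_cases i
      · exact mapsTo_id _
      · rintro _ ⟨t, ht, rfl⟩
        show ψ₀ (φ t) ∈ arc φ α s₁
        rw [m4 t ht]
        have g1 : (t - α) / D ≤ (p₁ - α) / D := div_le_div_of_nonneg_right (by linarith [ht.2]) hD0.le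
        have g2 : (p₁ - α) / D = q - q2 := by
          rw [ep₁, show β - q - α = l - q by rw [hl]; ring, sub_div, ← hq, ← hq2]
        have g3 : 0 ≤ (t - α) / D := div_nonneg (by linarith [ht.1]) hD0.le
        refine ⟨_, ⟨by linarith, ?_⟩, rfl⟩
        rw [es₁]; linarith
      · rintro _ ⟨t, ht, rfl⟩
        show ψ₀ (ψ₁ (F.eval (F.eval (φ t)))) ∈ arc φ s₁ s₂
        rw [m5 t ht]
        refine ⟨_, ⟨by linarith [ht.1], ?_⟩, rfl⟩
        have := ht.2
        rw [ep₂] at this
        rw [ep₁, es₂, es₁]; linarith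
      · rintro _ ⟨t, ht, rfl⟩
        show F.eval (φ t) ∈ arc φ s₂ β
        rw [m6 t ht]
        refine ⟨_, ⟨?_, by nlinarith [ht.2]⟩, rfl⟩
        have g1 : D * (β - t) ≤ D * (β - p₂) := mul_le_mul_of_nonneg_left (by linarith [ht.1]) hD0.le
        have g2 : D * (β - p₂) = l - q := by rw [ep₂]; linear_combination hqD - hq2D
        rw [es₂]; linarith
    · -- g (h x) = x
      intro i
      fin_cases i
      · intro x _; rfl
      · rintro _ ⟨t, ht, rfl⟩
        show ψ₀ (F.eval (φ t)) = φ t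
        rw [m1 t ht, m4]
        · congr 1; field_simp; ring
        · refine ⟨by nlinarith [ht.1], ?_⟩
          have g1 : D * (t - α) ≤ D * (s₁ - α) := mul_le_mul_of_nonneg_left (by linarith [ht.2]) hD0.le
          have g2 : D * (s₁ - α) = l - q := by rw [es₁]; linear_combination hqD - hq2D
          rw [ep₁]; linarith
      · rintro _ ⟨t, ht, rfl⟩
        show ψ₀ (ψ₁ (F.eval (F.eval (ψ₁ (ψ₀ (F.eval (F.eval (φ t)))))))) = φ t
        rw [m2 t ht, m5]
        · congr 1; ring
        · refine ⟨by linarith [ht.1], ?_⟩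
          have := ht.2
          rw [es₂] at this
          rw [ep₁, ep₂, es₁]; linarith
      · rintro _ ⟨t, ht, rfl⟩
        show F.eval (ψ₁ (φ t)) = φ t
        have g1 : (β - t) / D ≤ (β - s₂) / D := div_le_div_of_nonneg_right (by linarith [ht.1]) hD0.le
        have g2 : (β - s₂) / D = q - q2 := by
          rw [es₂, show β - (α + q) = l - q by rw [hl]; ring, sub_div, ← hq, ← hq2]
        have g3 : 0 ≤ (β - t) / D := div_nonneg (by linarith [ht.2]) hD0.le
        rw [m3 t ht, m6]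
        · congr 1; field_simp; ring
        · refine ⟨?_, by linarith⟩
          rw [ep₂]; linarith
    · -- h (g y) = y
      intro i
      fin_cases i
      · intro x _; rfl
      · rintro _ ⟨t, ht, rfl⟩
        show F.eval (ψ₀ (φ t)) = φ t
        have g1 : (t - α) / D ≤ (p₁ - α) / D := div_le_div_of_nonneg_right (by linarith [ht.2]) hD0.le
        have g2 : (p₁ - α) / D = q - q2 := by
          rw [ep₁, show β - q - α = l - q by rw [hl]; ring, sub_div, ← hq, ← hq2]
        have g3 : 0 ≤ (t - α) / D := div_nonneg (by linarith [ht.1]) hD0.le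
        rw [m4 t ht, m1]
        · congr 1; field_simp; ring
        · refine ⟨by linarith, ?_⟩
          rw [es₁]; linarith
      · rintro _ ⟨t, ht, rfl⟩
        show ψ₁ (ψ₀ (F.eval (F.eval (ψ₀ (ψ₁ (F.eval (F.eval (φ t)))))))) = φ t
        rw [m5 t ht, m2]
        · congr 1; ring
        · refine ⟨by linarith [ht.1], ?_⟩
          have := ht.2
          rw [ep₂] at this
          rw [ep₁, es₂, es₁]; linarith
      · rintro _ ⟨t, ht, rfl⟩
        show ψ₁ (F.eval (φ t)) = φ t
        rw [m6 t ht, m3]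
        · congr 1; field_simp; ring
        · refine ⟨?_, by nlinarith [ht.2]⟩
          have g1 : D * (β - t) ≤ D * (β - p₂) := mul_le_mul_of_nonneg_left (by linarith [ht.1]) hD0.le
          have g2 : D * (β - p₂) = l - q := by rw [ep₂]; linear_combination hqD - hq2D
          rw [es₂]; linarith
    · -- Lipschitz
      have sub : ∀ s t, α ≤ s → t ≤ β → arc φ s t ⊆ arc φ α β := fun s t hs ht =>
        image_mono (Icc_subset_Icc hs ht)
      refine ⟨L, fun i => ?_⟩
      fin_cases i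
      · refine ⟨fun x _ y _ => ?_, fun x _ y _ => ?_⟩ <;>
        · show dist x y ≤ L * dist x y
          nlinarith [dist_nonneg (x := x) (y := y)]
      · refine ⟨fun x hx y hy => L1 x (arcJ _ _ hx) y (arcJ _ _ hy), fun x hx y hy => ?_⟩
        exact L2 x (sub _ _ le_rfl (by linarith) hx) y (sub _ _ le_rfl (by linarith) hy)
      · exact ⟨fun x hx y hy => L4 x hx y hy, fun x hx y hy => L5 x hx y hy⟩
      · refine ⟨fun x hx y hy => ?_, fun x hx y hy => L1 x (arcJ _ _ hx) y (arcJ _ _ hy)⟩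
        exact L3 x (sub _ _ (by linarith) le_rfl hx) y (sub _ _ (by linarith) le_rfl hy)
    · -- agreement h
      have key : ∀ i j : Fin 4, i < j →
          ∀ x ∈ (![arc φ β (α + 1), arc φ α s₁, arc φ s₁ s₂, arc φ s₂ β] : Fin 4 → Set ℂ) i ∩
            (![arc φ β (α + 1), arc φ α s₁, arc φ s₁ s₂, arc φ s₂ β] : Fin 4 → Set ℂ) j,
          (![id, fun z => F.eval z, fun z => ψ₁ (ψ₀ (F.eval (F.eval z))), ψ₁] : Fin 4 → ℂ → ℂ) i x =
          (![id, fun z => F.eval z, fun z => ψ₁ (ψ₀ (F.eval (F.eval z))), ψ₁] : Fin 4 → ℂ → ℂ) j x := by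
        have k01 : ∀ x ∈ arc φ β (α + 1) ∩ arc φ α s₁, x = F.eval x := by
          intro x hx
          rw [C1.i01 x hx, m1 α ⟨le_rfl, a1.le⟩]; simp
        have k02 : ∀ x ∈ arc φ β (α + 1) ∩ arc φ s₁ s₂, x = ψ₁ (ψ₀ (F.eval (F.eval x))) := by
          intro x hx
          rw [C1.i02] at hx
          exact hx.elim
        have k03 : ∀ x ∈ arc φ β (α + 1) ∩ arc φ s₂ β, x = ψ₁ x := by
          intro x hx
          rw [C1.i03 x hx, m3 β ⟨by linarith, le_rfl⟩]; simp
        have k12 : ∀ x ∈ arc φ α s₁ ∩ arc φ s₁ s₂, F.eval x = ψ₁ (ψ₀ (F.eval (F.eval x))) := by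
          intro x hx
          rw [C1.i12 x hx, m2 s₁ ⟨le_rfl, a2.le⟩, m1 s₁ ⟨a1.le, le_rfl⟩, sub_self, add_zero]
          congr 1
          rw [es₁, ep₁]
          linear_combination hqD - hq2D + hl
        have k13 : ∀ x ∈ arc φ α s₁ ∩ arc φ s₂ β, F.eval x = ψ₁ x := by
          intro x hx
          rw [C1.i13] at hx
          exact hx.elim
        have k23 : ∀ x ∈ arc φ s₁ s₂ ∩ arc φ s₂ β, ψ₁ (ψ₀ (F.eval (F.eval x))) = ψ₁ x := by
          intro x hx
          rw [C1.i23 x hx, m2 s₂ ⟨a2.le, le_rfl⟩, m3 s₂ ⟨le_rfl, by linarith⟩]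
          congr 1
          have g2 : (β - s₂) / D = q - q2 := by
            rw [es₂, show β - (α + q) = l - q by rw [hl]; ring, sub_div, ← hq, ← hq2]
          rw [g2, ep₁, es₁, es₂]; ring
        intro i j hij
        fin_cases i <;> fin_cases j
        all_goals first
          | exact absurd hij (by decide)
          | exact k01
          | exact k02
          | exact k03
          | exact k12
          | exact k13
          | exact k23
      intro i j x hx
      rcases lt_trichotomy i j with hij | rfl | hij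
      · exact key i j hij x hx
      · rfl
      · exact (key j i hij x ⟨hx.2, hx.1⟩).symm
    · -- agreement g
      have key : ∀ i j : Fin 4, i < j →
          ∀ x ∈ (![arc φ β (α + 1), arc φ α p₁, arc φ p₁ p₂, arc φ p₂ β] : Fin 4 → Set ℂ) i ∩
            (![arc φ β (α + 1), arc φ α p₁, arc φ p₁ p₂, arc φ p₂ β] : Fin 4 → Set ℂ) j,
          (![id, ψ₀, fun z => ψ₀ (ψ₁ (F.eval (F.eval z))), fun z => F.eval z] : Fin 4 → ℂ → ℂ) i x =
          (![id, ψ₀, fun z => ψ₀ (ψ₁ (F.eval (F.eval z))), fun z => F.eval z] : Fin 4 → ℂ → ℂ) j x := by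
        have k01 : ∀ x ∈ arc φ β (α + 1) ∩ arc φ α p₁, x = ψ₀ x := by
          intro x hx
          rw [C2.i01 x hx, m4 α ⟨le_rfl, by linarith⟩]; simp
        have k02 : ∀ x ∈ arc φ β (α + 1) ∩ arc φ p₁ p₂, x = ψ₀ (ψ₁ (F.eval (F.eval x))) := by
          intro x hx
          rw [C2.i02] at hx
          exact hx.elim
        have k03 : ∀ x ∈ arc φ β (α + 1) ∩ arc φ p₂ β, x = F.eval x := by
          intro x hx
          rw [C2.i03 x hx, m6 β ⟨a5.le, le_rfl⟩]; simp
        have k12 : ∀ x ∈ arc φ α p₁ ∩ arc φ p₁ p₂, ψ₀ x = ψ₀ (ψ₁ (F.eval (F.eval x))) := by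
          intro x hx
          rw [C2.i12 x hx, m5 p₁ ⟨le_rfl, a4.le⟩, m4 p₁ ⟨by linarith, le_rfl⟩, sub_self, add_zero]
          have e : α + (p₁ - α) / D = s₁ := by rw [hs₁, hp₁]; ring
          rw [e]
        have k13 : ∀ x ∈ arc φ α p₁ ∩ arc φ p₂ β, ψ₀ x = F.eval x := by
          intro x hx
          rw [C2.i13] at hx
          exact hx.elim
        have k23 : ∀ x ∈ arc φ p₁ p₂ ∩ arc φ p₂ β, ψ₀ (ψ₁ (F.eval (F.eval x))) = F.eval x := by
          intro x hx
          rw [C2.i23 x hx, m5 p₂ ⟨a4.le, le_rfl⟩, m6 p₂ ⟨le_rfl, a5.le⟩]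
          congr 1
          rw [ep₁, ep₂, es₁]
          linear_combination hqD - hq2D + hl
        intro i j hij
        fin_cases i <;> fin_cases j
        all_goals first
          | exact absurd hij (by decide)
          | exact k01
          | exact k02
          | exact k03
          | exact k12
          | exact k13
          | exact k23
      intro i j x hx
      rcases lt_trichotomy i j with hij | rfl | hij
      · exact key i j hij x hx
      · rfl
      · exact (key j i hij x ⟨hx.2, hx.1⟩).symm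
    · intro i j hij
      fin_cases i <;> fin_cases j
      all_goals first
        | exact absurd hij (by decide)
        | exact C1.t01
        | exact C1.t02
        | exact C1.t03
        | exact C1.t12
        | exact C1.t13
        | exact C1.t23
    · intro i j hij
      fin_cases i <;> fin_cases j
      all_goals first
        | exact absurd hij (by decide)
        | exact C2.t01
        | exact C2.t02
        | exact C2.t03
        | exact C2.t12
        | exact C2.t13
        | exact C2.t23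
  obtain ⟨Ψ, L', hL', hbi, hΨ⟩ := hglue
  refine ⟨Ψ, L', hL', hbi, fun n hn => ?_⟩
  have hDn : 1 ≤ D ^ (n - 1) := one_le_pow₀ (by linarith)
  set t := α + (s₁ - α) / D ^ (n - 1) with ht
  have ht0 : 0 < t - α := by
    rw [ht, add_sub_cancel_left]
    exact div_pos (by linarith) (by positivity)
  have htn : D ^ (n - 1) * (t - α) = s₁ - α := by
    rw [ht, add_sub_cancel_left]; field_simp
  have hmemJ : φ t ∈ JJ F := by rw [← hF.rng]; exact mem_range_self t
  refine ⟨⟨φ t, hmemJ⟩, ?_⟩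
  have hit : ∀ j : ℕ, j ≤ n → (((fun y : JJ F => Ψ y)^[j] ⟨φ t, hmemJ⟩ : JJ F) : ℂ) =
      φ (α + D ^ j * (t - α)) := by
    intro j
    induction j with
    | zero => intro _; simp
    | succ j ih =>
      intro hj
      have ihj := ih (by omega)
      rw [Function.iterate_succ_apply']
      have hle : D ^ j * (t - α) ≤ s₁ - α := by
        rw [← htn]
        exact mul_le_mul_of_nonneg_right (pow_le_pow_right₀ (by linarith) (by omega)) ht0.le
      have hmem : α + D ^ j * (t - α) ∈ Icc α s₁ :=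
        ⟨by have := mul_pos (pow_pos hD0 j) ht0; linarith, by linarith⟩
      have h6 := hΨ 1 ((fun y : JJ F => Ψ y)^[j] ⟨φ t, hmemJ⟩) (by
        rw [ihj]; exact ⟨_, hmem, rfl⟩)
      have h7 : ((Ψ ((fun y : JJ F => Ψ y)^[j] ⟨φ t, hmemJ⟩) : JJ F) : ℂ) =
          F.eval (((fun y : JJ F => Ψ y)^[j] ⟨φ t, hmemJ⟩ : JJ F) : ℂ) := h6
      rw [h7, ihj, m1 _ hmem]
      congr 1
      rw [pow_succ]; ring
  intro heq
  have h6 := hit n le_rfl
  rw [heq] at h6
  have h7 : α + D ^ n * (t - α) = p₁ := by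
    obtain ⟨n', rfl⟩ : ∃ n', n = n' + 1 := ⟨n - 1, by omega⟩
    rw [Nat.add_sub_cancel] at htn
    rw [pow_succ, mul_right_comm, htn, es₁, ep₁]
    have : q2 * D = q := hq2D
    have : q * D = l := hqD
    rw [hl] at this
    linear_combination this - hq2D
  rw [h7] at h6
  have htI : t ∈ Ioo α s₂ := by
    refine ⟨by linarith, ?_⟩
    have : t - α ≤ s₁ - α := by
      rw [← htn]
      have := mul_le_mul_of_nonneg_right hDn ht0.le
      linarith
    linarith
  obtain ⟨m, hm1, hm2⟩ := sat1 t htI p₁ h6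
  have hm3 : (m : ℝ) < 0 := by linarith
  have hm4 : m ≤ -1 := by
    have : m < 0 := by exact_mod_cast hm3
    omega
  have hm5 : (m : ℝ) ≤ -1 := by exact_mod_cast hm4
  linarith

end Pool.Agent.W800.JQ
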